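import Mathlib

namespace Pool.Agent.Results.MP_aa7c57_an.Product

theorem result (k : ℕ) (C : ℕ → ℝ) (h0 : ∀ n, 0 ≤ C n) (hp : ∀ n, C (n + k) = C n) (i : ℕ)
    (hi : ∀ j, 0 < C (i + 5 * j))
    (hP : ∏ j ∈ Finset.range k, (C (i + 5 * j + 3) + 1 / C (i + 5 * j)) < 1)
    (x : ℕ → ℝ) (hpos : ∀ n, 0 < x n) (hx : ∀ n, x (n + 3) = 1 / (C n * x (n + 1) + x n)) :
    ¬ ∃ M, ∀ n, x n ≤ M := by
  rintro ⟨M, hM⟩
  have eqn : ∀ n, x (n + 3) * (C n * x (n + 1) + x n) = 1 := fun n => by
    have := h0 n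
    have := hpos n
    have := hpos (n + 1)
    rw [hx]; field_simp
  let D : ℕ → ℝ := fun j => C (i + 5 * j + 3) + 1 / C (i + 5 * j)
  have D0 : ∀ j, 0 < D j := fun j => by
    have := h0 (i + 5 * j + 3); have := hi j; positivity
  have Dk : Function.Periodic D k := fun j => by
    simp only [D]
    rw [show i + 5 * (j + k) + 3 = i + 5 * j + 3 + k + k + k + k + k by ring,
      show i + 5 * (j + k) = i + 5 * j + k + k + k + k + k by ring]
    simp only [hp]
  have low : ∀ j, x (i + 5 * j + 1) ≤ D j * x (i + 5 * (j + 1) + 1) := by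
    intro j
    have b0 := hi j
    simp only [D]
    rw [show i + 5 * (j + 1) + 1 = i + 5 * j + 6 by ring]
    generalize i + 5 * j = n at *
    have e0 := eqn n
    have e1 : x (n + 4) * (C (n + 1) * x (n + 2) + x (n + 1)) = 1 := eqn (n + 1)
    have e2 : x (n + 6) * (C (n + 3) * x (n + 4) + x (n + 3)) = 1 := eqn (n + 3)
    have c3 := h0 (n + 3)
    have p6 := hpos (n + 6)
    have a1 : x (n + 3) * x (n + 1) ≤ 1 / C n := by
      rw [le_div_iff₀ b0]; nlinarith [mul_pos (hpos (n + 3)) (hpos n)]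
    have a2 : x (n + 4) * x (n + 1) ≤ 1 := by
      nlinarith [mul_nonneg (hpos (n + 4)).le (mul_nonneg (h0 (n + 1)) (hpos (n + 2)).le)]
    have a3 : (C (n + 3) * x (n + 4) + x (n + 3)) * x (n + 1) ≤ C (n + 3) + 1 / C n := by
      nlinarith
    calc x (n + 1) = x (n + 6) * ((C (n + 3) * x (n + 4) + x (n + 3)) * x (n + 1)) := by
          rw [← mul_assoc, e2, one_mul]
      _ ≤ x (n + 6) * (C (n + 3) + 1 / C n) := by gcongr
      _ = _ := mul_comm _ _
  have blk : ∀ m t : ℕ, x (i + 5 * m + 1) ≤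
      (∏ j ∈ Finset.range t, D (m + j)) * x (i + 5 * (m + t) + 1) := by
    intro m t
    induction t with
    | zero => simp
    | succ t ih =>
      rw [Finset.prod_range_succ, mul_assoc]
      exact ih.trans (mul_le_mul_of_nonneg_left (low (m + t))
        (Finset.prod_pos fun j _ => D0 _).le)
  set P := ∏ j ∈ Finset.range k, D j with hPd
  have P0 : 0 < P := Finset.prod_pos fun j _ => D0 _
  have it : ∀ r : ℕ, x (i + 1) ≤ P ^ r * x (i + 5 * (r * k) + 1) := by
    intro r
    induction r with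
    | zero => simp
    | succ r ih =>
      have a := blk (r * k) k
      have e : ∏ j ∈ Finset.range k, D (r * k + j) = P := Finset.prod_congr rfl fun j _ => by
        rw [add_comm]; simpa using Dk.nsmul r j
      rw [e, show r * k + k = (r + 1) * k by ring] at a
      rw [pow_succ, mul_assoc]
      exact ih.trans (mul_le_mul_of_nonneg_left a (pow_pos P0 r).le)
  have M0 : 0 < M := (hpos 0).trans_le (hM 0)
  obtain ⟨r, hr⟩ := exists_pow_lt_of_lt_one (div_pos (hpos (i + 1)) M0) hP
  rw [lt_div_iff₀ M0] at hr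
  have := mul_le_mul_of_nonneg_left (hM (i + 5 * (r * k) + 1)) (pow_pos P0 r).le
  linarith [it r]

end Pool.Agent.Results.MP_aa7c57_an.Product
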